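import Pool.Agent.FF.Defs

/-!
Row ASY of the board ff_modules: the asymptotic form of the bound.
-/

set_option autoImplicit false

open scoped BigOperators RealInnerProductSpace Classical

namespace Pool.Agent.FF

noncomputable section

open Module

theorem asy (c : ℝ) (h0 : 0 ≤ c) (h3 : c < 3) : ∃ δ : ℝ, 0 < δ ∧ ∀ (d k N : ℕ), (k : ℝ) ≤ δ * d →
    3 ^ d * k.factorial ≤ N * (22 * (d + k)) ^ k → c ^ d ≤ (N : ℝ) := by
  obtain ⟨c', hcc, hc1, hc3⟩ : ∃ c' : ℝ, c ≤ c' ∧ 1 ≤ c' ∧ c' < 3 :=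
    ⟨max c 1, le_max_left _ _, le_max_right _ _, max_lt h3 (by norm_num)⟩
  have hc0 : 0 < c' := by linarith
  obtain ⟨e, he⟩ : ∃ e : ℝ, e = Real.log (3 / c') := ⟨_, rfl⟩
  have hepos : 0 < e := by
    rw [he]
    exact Real.log_pos (by rw [lt_div_iff₀ hc0]; linarith)
  obtain ⟨t, htpos, ht1, hte⟩ : ∃ t : ℝ, 0 < t ∧ t ≤ 1 ∧ t ≤ e / 2 :=
    ⟨min (e / 2) 1, lt_min (by linarith) one_pos, min_le_right _ _, min_le_left _ _⟩
  have hlog : 0 < Real.log (22 / t) :=
    Real.log_pos (by rw [lt_div_iff₀ htpos]; linarith)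
  obtain ⟨L, hL⟩ : ∃ L : ℝ, L = Real.log (22 / t) + t := ⟨_, rfl⟩
  have hLpos : 0 < L := by linarith
  refine ⟨e / 2 / L, by positivity, ?_⟩
  intro d k N hk hN
  have hN' : (3 : ℝ) ^ d * k.factorial ≤ N * (22 * ((d : ℝ) + k)) ^ k := by exact_mod_cast hN
  have hkf : (0 : ℝ) < k.factorial := by exact_mod_cast Nat.factorial_pos k
  have h1 : (t * ((d : ℝ) + k)) ^ k / k.factorial ≤ Real.exp (t * (d + k)) :=
    Real.pow_div_factorial_le_exp _ (by positivity) _
  have h1' : (t * ((d : ℝ) + k)) ^ k ≤ Real.exp (t * (d + k)) * k.factorial := by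
    rwa [div_le_iff₀ hkf] at h1
  have h2 : (22 * ((d : ℝ) + k)) ^ k = (22 / t) ^ k * (t * (d + k)) ^ k := by
    rw [← mul_pow]
    congr 1
    field_simp
  have h4 : (3 : ℝ) ^ d ≤ N * ((22 / t) ^ k * Real.exp (t * (d + k))) := by
    have h5 : (3 : ℝ) ^ d * k.factorial ≤
        (N * ((22 / t) ^ k * Real.exp (t * (d + k)))) * k.factorial := by
      calc (3 : ℝ) ^ d * k.factorial ≤ N * (22 * ((d : ℝ) + k)) ^ k := hN'
        _ = N * ((22 / t) ^ k * (t * (d + k)) ^ k) := by rw [h2]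
        _ ≤ N * ((22 / t) ^ k * (Real.exp (t * (d + k)) * k.factorial)) := by gcongr
        _ = _ := by ring
    exact le_of_mul_le_mul_right h5 hkf
  have h5 : (22 / t) ^ k * Real.exp (t * (d + k)) =
      Real.exp (k * Real.log (22 / t) + t * (d + k)) := by
    rw [Real.exp_add, Real.exp_nat_mul, Real.exp_log (by positivity)]
  have h6 : (k : ℝ) * Real.log (22 / t) + t * (d + k) ≤ d * e := by
    have h61 : (k : ℝ) * L ≤ e / 2 * d := by
      calc (k : ℝ) * L ≤ (e / 2 / L * d) * L := by gcongr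
        _ = e / 2 * d := by field_simp
    have h62 : t * (d : ℝ) ≤ e / 2 * d := by gcongr
    rw [hL] at h61
    nlinarith
  have h7 : Real.exp (d * e) = (3 / c') ^ d := by
    rw [Real.exp_nat_mul, he, Real.exp_log (by positivity)]
  have h8 : (3 : ℝ) ^ d ≤ N * (3 / c') ^ d := by
    calc (3 : ℝ) ^ d ≤ N * ((22 / t) ^ k * Real.exp (t * (d + k))) := h4
      _ = N * Real.exp (k * Real.log (22 / t) + t * (d + k)) := by rw [h5]
      _ ≤ N * Real.exp (d * e) := by gcongr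
      _ = _ := by rw [h7]
  have h9 : c' ^ d ≤ (N : ℝ) := by
    have h91 : (3 : ℝ) ^ d * c' ^ d ≤ 3 ^ d * N := by
      calc (3 : ℝ) ^ d * c' ^ d ≤ (N * (3 / c') ^ d) * c' ^ d := by gcongr
        _ = 3 ^ d * N := by
          rw [mul_assoc, ← mul_pow, div_mul_cancel₀ _ hc0.ne']
          ring
    exact le_of_mul_le_mul_left h91 (by positivity)
  exact (pow_le_pow_left₀ h0 hcc d).trans h9

end

end Pool.Agent.FF
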