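import Pool.Agent.FF.NLB
import Pool.Agent.FF.ASY

/-!
# Faces of centrally symmetric polytopes with few facets or vertices
-/

set_option autoImplicit false

open scoped BigOperators RealInnerProductSpace Classical

namespace Pool.Agent.FF

noncomputable section

open Module Pool.Agent.GRD

/-- the two kinds of polytopes -/
theorem both {d n : ℕ} (a : Fin n → E d) (P : Set (E d))
    (hP : (P = {x | ∀ i, |⟪a i, x⟫| ≤ 1} ∧ Bornology.IsBounded P) ∨
      (P = convexHull ℝ (Set.range a ∪ Set.range (fun i => -a i)) ∧ (interior P).Nonempty)) :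
    finrank ℝ (LinearMap.range (TT a)) = d ∧ d ≤ n ∧
      (NL (LinearMap.range (TT a)) : ℕ∞) ≤
        {F : Set (E d) | F.Nonempty ∧ IsExposed ℝ P F}.encard := by
  have hinj : Function.Injective (TT a) := by
    rcases hP with ⟨h1, h2⟩ | ⟨h1, h2⟩
    · exact inj_of_bounded a h1 h2
    · exact inj_of_interior a h1 h2
  have hfr : finrank ℝ (LinearMap.range (TT a)) = d := by
    rw [LinearMap.finrank_range_of_inj hinj]; simp
  refine ⟨hfr, ?_, ?_⟩
  · have h1 := Submodule.finrank_le (LinearMap.range (TT a))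
    rw [hfr, Module.finrank_fin_fun] at h1
    exact h1
  · rcases hP with ⟨h3, h4⟩ | ⟨h3, h4⟩
    · exact facet_case a h3
    · exact vertex_case a h3 (h4.mono interior_subset)

theorem final_exact {d n : ℕ} (a : Fin n → E d) (P : Set (E d))
    (hP : (P = {x | ∀ i, |⟪a i, x⟫| ≤ 1} ∧ Bornology.IsBounded P) ∨
      (P = convexHull ℝ (Set.range a ∪ Set.range (fun i => -a i)) ∧ (interior P).Nonempty)) :
    d ≤ n ∧ (3 : ℕ∞) ^ d * ((n - d).factorial : ℕ) ≤
      (22 * (n : ℕ∞)) ^ (n - d) * {F : Set (E d) | F.Nonempty ∧ IsExposed ℝ P F}.encard := by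
  obtain ⟨h1, h2, h3⟩ := both a P hP
  refine ⟨h2, ?_⟩
  have h4 := nl_bound (LinearMap.range (TT a)) (k := n - d) (by
    rw [h1, Fintype.card_fin]; omega)
  rw [h1, Fintype.card_fin] at h4
  have h5 : (3 : ℕ∞) ^ d * ((n - d).factorial : ℕ) ≤
      (NL (LinearMap.range (TT a)) : ℕ∞) * (22 * (n : ℕ∞)) ^ (n - d) := by
    exact_mod_cast h4
  refine h5.trans ?_
  rw [mul_comm]
  gcongr

theorem final_asy (c : ℝ) (h0 : 0 ≤ c) (hc : c < 3) : ∃ δ : ℝ, 0 < δ ∧
    ∀ (d n : ℕ) (a : Fin n → E d) (P : Set (E d)), (n : ℝ) ≤ (1 + δ) * d →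
      ((P = {x | ∀ i, |⟪a i, x⟫| ≤ 1} ∧ Bornology.IsBounded P) ∨
        (P = convexHull ℝ (Set.range a ∪ Set.range (fun i => -a i)) ∧ (interior P).Nonempty)) →
      ENNReal.ofReal (c ^ d) ≤
        (({F : Set (E d) | F.Nonempty ∧ IsExposed ℝ P F}.encard : ℕ∞) : ENNReal) := by
  obtain ⟨δ, hδ, h⟩ := asy c h0 hc
  refine ⟨δ, hδ, ?_⟩
  intro d n a P hn hP
  obtain ⟨h1, h2, h3⟩ := both a P hP
  have h4 := nl_bound (LinearMap.range (TT a)) (k := n - d) (by
    rw [h1, Fintype.card_fin]; omega)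
  rw [h1, Fintype.card_fin] at h4
  have h5 := h d (n - d) (NL (LinearMap.range (TT a))) (by
    rw [Nat.cast_sub h2]; linarith) (by
    have : d + (n - d) = n := by omega
    rw [this]; exact h4)
  calc ENNReal.ofReal (c ^ d) ≤ ENNReal.ofReal (NL (LinearMap.range (TT a)) : ℝ) :=
        ENNReal.ofReal_le_ofReal h5
    _ = (((NL (LinearMap.range (TT a)) : ℕ) : ℕ∞) : ENNReal) := by
        rw [ENNReal.ofReal_natCast]; rfl
    _ ≤ _ := by
        exact_mod_cast h3

end

end Pool.Agent.FF
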