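import Pool.Agent.GRD.Geom

/-!
# Centrally symmetric polytopes with few facets or few vertices: definitions
-/

set_option autoImplicit false

open scoped BigOperators RealInnerProductSpace Classical

namespace Pool.Agent.FF

noncomputable section

/-- Euclidean space of real vectors indexed by `ι` -/
abbrev V (ι : Type) [Fintype ι] := EuclideanSpace ℝ ι

/-- the sign of a boolean -/
def sgb (b : Bool) : ℝ := if b then 1 else -1

/-- half the difference of two boolean signs -/
def df (a b : Bool) : ZMod 3 := if a = b then 0 else if a then 1 else -1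

/-- the constant of the Gaussian sum -/
def Cg : ℝ := Real.exp (1 / 8) * Real.sqrt (2 * Real.pi)

/-- the bound for the Gaussian sum over `ℤ^k` -/
def Bd (n : ℝ) (k : ℕ) : ℝ := ∏ j ∈ Finset.range k, (Cg * Real.sqrt (n / ((j : ℝ) + 1)))

/-- projection of the unit vector `i` on `W` -/
def bb {ι : Type} [Fintype ι] (W : Submodule ℝ (V ι)) (i : ι) : V ι :=
  W.starProjection (EuclideanSpace.single i 1)

/-- the vector with coordinates `± 1` (from `v`) where `p` holds and `0` elsewhere -/
def hat {ι : Type} [Fintype ι] (p : ι → Prop) (v : {i // p i} → Bool) : V ι :=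
  WithLp.toLp 2 (fun i => if h : p i then sgb (v ⟨i, h⟩) else 0)

end

end Pool.Agent.FF
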