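import Pool.Agent.FF.Defs

/-!
# Second moments of Rademacher sums and of projected sign vectors
-/

set_option autoImplicit false

open scoped BigOperators RealInnerProductSpace Classical

namespace Pool.Agent.FF

noncomputable section

open Module Pool.Agent.GRD

private theorem rad_sq (b : Bool) : sgb b * sgb b = 1 := by
  cases b <;> simp [sgb]

private theorem rad_not (b : Bool) : sgb (!b) = - sgb b := by
  cases b <;> simp [sgb]

private theorem rad_cross {J : Type} [Fintype J] (i j : J) (hij : i ≠ j) :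
    ∑ v : J → Bool, sgb (v i) * sgb (v j) = 0 := by
  have h1 : ∑ v : J → Bool, sgb (v i) * sgb (v j) =
      ∑ v : J → Bool, sgb (Function.update v i (!v i) i) * sgb (Function.update v i (!v i) j) := by
    have hinv : Function.Involutive fun v : J → Bool => Function.update v i (!v i) := by
      intro v
      simp
    exact (Equiv.sum_comp hinv.toPerm fun v : J → Bool => sgb (v i) * sgb (v j)).symm
  have h2 : ∑ v : J → Bool, sgb (Function.update v i (!v i) i) * sgb (Function.update v i (!v i) j) =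
      - ∑ v : J → Bool, sgb (v i) * sgb (v j) := by
    rw [← Finset.sum_neg_distrib]
    refine Finset.sum_congr rfl fun v _ => ?_
    rw [Function.update_self, Function.update_of_ne hij.symm, rad_not]
    ring
  linarith

theorem rad {J : Type} [Fintype J] (c : J → ℝ) :
    ∑ v : J → Bool, (∑ j, c j * sgb (v j)) ^ 2 = 2 ^ Fintype.card J * ∑ j, c j ^ 2 := by
  have h1 : ∀ v : J → Bool, (∑ j, c j * sgb (v j)) ^ 2 =
      ∑ i, ∑ j, c i * c j * (sgb (v i) * sgb (v j)) := by
    intro v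
    rw [sq, Finset.sum_mul_sum]
    refine Finset.sum_congr rfl fun i _ => Finset.sum_congr rfl fun j _ => ?_
    ring
  rw [Finset.sum_congr rfl fun v _ => h1 v, Finset.sum_comm, Finset.mul_sum]
  refine Finset.sum_congr rfl fun i _ => ?_
  rw [Finset.sum_comm, Finset.sum_eq_single i]
  · rw [Finset.sum_congr rfl fun v _ => by rw [rad_sq (v i)], Finset.sum_const, Finset.card_univ,
      Fintype.card_fun, Fintype.card_bool, nsmul_eq_mul]
    push_cast
    ring
  · intro j _ hj
    rw [← Finset.mul_sum, rad_cross i j hj.symm, mul_zero]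
  · intro h
    exact absurd (Finset.mem_univ i) h

private theorem rad_any {J : Type} [Fintype J] (inst : Fintype (J → Bool)) (c : J → ℝ) :
    ∑ v ∈ @Finset.univ (J → Bool) inst, (∑ j, c j * sgb (v j)) ^ 2 =
      2 ^ Fintype.card J * ∑ j, c j ^ 2 := by
  have h : ∀ (i1 i2 : Fintype (J → Bool)),
      ∑ v ∈ @Finset.univ (J → Bool) i1, (∑ j, c j * sgb (v j)) ^ 2 =
      ∑ v ∈ @Finset.univ (J → Bool) i2, (∑ j, c j * sgb (v j)) ^ 2 := by
    intro i1 i2
    rw [Subsingleton.elim i1 i2]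
  exact (h inst _).trans (rad c)

private theorem rad_proj {ι : Type} [Fintype ι] (W : Submodule ℝ (V ι))
    (b : OrthonormalBasis (Fin (finrank ℝ W)) ℝ W) (x : V ι) :
    ‖W.starProjection x‖ ^ 2 = ∑ l, ⟪((b l : W) : V ι), x⟫ ^ 2 := by
  have h1 := b.sum_sq_norm_inner_right (W.orthogonalProjectionOnto x)
  have h2 : ‖W.starProjection x‖ = ‖W.orthogonalProjectionOnto x‖ := by
    rw [Submodule.starProjection_apply, Submodule.coe_norm]
  rw [h2, ← h1]
  refine Finset.sum_congr rfl fun l _ => ?_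
  rw [Submodule.inner_orthogonalProjectionOnto_eq_of_mem_left, Real.norm_eq_abs, sq_abs]

private theorem rad_inner {ι : Type} [Fintype ι] (p : ι → Prop) (w : V ι) (v : {i // p i} → Bool) :
    ⟪w, hat p v⟫ = ∑ i : {i // p i}, w i.1 * sgb (v i) := by
  rw [PiLp.inner_apply]
  have h1 : ∀ i : ι, ⟪w i, hat p v i⟫ = if h : p i then w i * sgb (v ⟨i, h⟩) else 0 := by
    intro i
    have h2 : hat p v i = if h : p i then sgb (v ⟨i, h⟩) else 0 := rfl
    rw [h2]
    by_cases h : p i
    · rw [dif_pos h, dif_pos h]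
      show sgb (v ⟨i, h⟩) * w i = _
      ring
    · rw [dif_neg h, dif_neg h]
      show (0 : ℝ) * w i = _
      ring
  rw [Finset.sum_congr rfl fun i _ => h1 i]
  have h3 : ∑ i : {i // p i}, w i.1 * sgb (v i) =
      ∑ i : {i // p i}, (fun i : ι => if h : p i then w i * sgb (v ⟨i, h⟩) else 0) i.1 := by
    refine Finset.sum_congr rfl fun i _ => ?_
    show _ = if h : p i.1 then w i.1 * sgb (v ⟨i.1, h⟩) else 0
    rw [dif_pos i.2]
  rw [h3, ← Finset.sum_subtype (Finset.univ.filter p) (by simp)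
    (fun i : ι => if h : p i then w i * sgb (v ⟨i, h⟩) else 0)]
  refine (Finset.sum_subset (Finset.filter_subset _ _) fun i _ hi => ?_).symm
  rw [Finset.mem_filter] at hi
  have h4 : ¬ p i := fun h => hi ⟨Finset.mem_univ i, h⟩
  rw [dif_neg h4]

private theorem rad_part {ι : Type} [Fintype ι] (p : ι → Prop) (w : V ι) (hw : ‖w‖ = 1) :
    ∑ i : {i // p i}, w i.1 ^ 2 ≤ 1 := by
  have h1 : ‖w‖ ^ 2 = 1 := by rw [hw, one_pow]
  rw [EuclideanSpace.norm_sq_eq] at h1
  rw [← h1]
  have h2 : ∑ i : {i // p i}, w i.1 ^ 2 = ∑ i ∈ Finset.univ.filter p, w i ^ 2 :=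
    (Finset.sum_subtype (Finset.univ.filter p) (by simp) (fun i => w i ^ 2)).symm
  rw [h2]
  refine (Finset.sum_le_sum_of_subset_of_nonneg (Finset.filter_subset _ _)
    (fun i _ _ => sq_nonneg _)).trans (le_of_eq ?_)
  exact Finset.sum_congr rfl fun i _ => by rw [Real.norm_eq_abs, sq_abs]

private theorem rad_sum {ι : Type} [Fintype ι] (p : ι → Prop) (W : Submodule ℝ (V ι))
    (b : OrthonormalBasis (Fin (finrank ℝ W)) ℝ W) :
    ∑ v : {i // p i} → Bool, ‖W.starProjection (hat p v)‖ ^ 2 =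
      ∑ l, 2 ^ Fintype.card {i // p i} * ∑ i : {i // p i}, ((b l : W) : V ι) i.1 ^ 2 := by
  have h1 : ∀ v : {i // p i} → Bool, ‖W.starProjection (hat p v)‖ ^ 2 =
      ∑ l, (∑ i : {i // p i}, ((b l : W) : V ι) i.1 * sgb (v i)) ^ 2 := by
    intro v
    rw [rad_proj W b]
    exact Finset.sum_congr rfl fun l _ => by rw [rad_inner]
  rw [Finset.sum_congr rfl fun v _ => h1 v, Finset.sum_comm]
  exact Finset.sum_congr rfl fun l _ => rad_any _ _

theorem sum_q {ι : Type} [Fintype ι] (p : ι → Prop) (W : Submodule ℝ (V ι)) :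
    ∑ v : {i // p i} → Bool, ‖W.starProjection (hat p v)‖ ^ 2 ≤
      2 ^ Fintype.card {i // p i} * finrank ℝ W := by
  obtain ⟨b⟩ : Nonempty (OrthonormalBasis (Fin (finrank ℝ W)) ℝ W) := ⟨stdOrthonormalBasis ℝ W⟩
  rw [rad_sum p W b]
  have h1 : ∀ l ∈ (Finset.univ : Finset (Fin (finrank ℝ W))),
      (2 : ℝ) ^ Fintype.card {i // p i} * ∑ i : {i // p i}, ((b l : W) : V ι) i.1 ^ 2 ≤
        (2 : ℝ) ^ Fintype.card {i // p i} := by
    intro l _
    have h2 : ‖((b l : W) : V ι)‖ = 1 := by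
      rw [← Submodule.coe_norm, b.norm_eq_one]
    have h3 := rad_part p _ h2
    have h4 : (0 : ℝ) ≤ 2 ^ Fintype.card {i // p i} := by positivity
    calc (2 : ℝ) ^ Fintype.card {i // p i} * ∑ i : {i // p i}, ((b l : W) : V ι) i.1 ^ 2
        ≤ (2 : ℝ) ^ Fintype.card {i // p i} * 1 := mul_le_mul_of_nonneg_left h3 h4
      _ = (2 : ℝ) ^ Fintype.card {i // p i} := mul_one _
  refine (Finset.sum_le_sum h1).trans (le_of_eq ?_)
  rw [Finset.sum_const, Finset.card_univ, Fintype.card_fin, nsmul_eq_mul, mul_comm]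

end

end Pool.Agent.FF
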