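import Pool.Agent.FF.G3
import Pool.Agent.FF.RAD

/-!
# Row FIB: a large fibre of the rounding map
-/

set_option autoImplicit false

open scoped BigOperators RealInnerProductSpace Classical

namespace Pool.Agent.FF

noncomputable section

open Module Pool.Agent.GRD

/-- nearest integer to half of a real number -/
def rd (y : ℝ) : ℤ := ⌊(y + 1) / 2⌋

theorem rd_ge (y : ℝ) : -1 ≤ y - 2 * (rd y : ℝ) := by
  have h := Int.floor_le ((y + 1) / 2)
  unfold rd
  linarith

theorem rd_lt (y : ℝ) : y - 2 * (rd y : ℝ) < 1 := by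
  have h := Int.lt_floor_add_one ((y + 1) / 2)
  unfold rd
  linarith

theorem norm_star_le {ι : Type} [Fintype ι] (W : Submodule ℝ (V ι)) (z : V ι) :
    ‖W.starProjection z‖ ≤ ‖z‖ := by
  have h1 := (W.starProjection).le_opNorm z
  have h2 := W.starProjection_norm_le
  nlinarith [norm_nonneg z]

theorem norm_comb {ι : Type} [Fintype ι] (W : Submodule ℝ (V ι)) {k : ℕ} (f : Fin k → ι)
    (hf : Function.Injective f) (t : Fin k → ℝ) (ht : ∀ j, |t j| ≤ 1) :
    ‖∑ j, t j • bb W (f j)‖ ≤ Real.sqrt k := by
  have hz : ∑ j, t j • bb W (f j) =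
      W.starProjection (∑ j, t j • (EuclideanSpace.single (f j) (1 : ℝ) : V ι)) := by
    rw [map_sum]
    refine Finset.sum_congr rfl fun j _ => ?_
    rw [map_smul]
    rfl
  rw [hz]
  refine (norm_star_le W _).trans ?_
  apply Real.le_sqrt_of_sq_le
  have ho : Orthonormal ℝ (fun j : Fin k => (EuclideanSpace.single (f j) (1 : ℝ) : V ι)) :=
    (EuclideanSpace.orthonormal_single (𝕜 := ℝ) (ι := ι)).comp f hf
  rw [← real_inner_self_eq_norm_sq, ho.inner_sum]
  calc ∑ j, (starRingEnd ℝ) (t j) * t j = ∑ j, |t j| ^ 2 := by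
        refine Finset.sum_congr rfl fun j _ => ?_
        rw [sq_abs]; simp [sq]
    _ ≤ ∑ _j : Fin k, (1 : ℝ) := by
        refine Finset.sum_le_sum fun j _ => ?_
        have := ht j
        have h0 := abs_nonneg (t j)
        nlinarith
    _ = k := by simp

theorem fib {ι : Type} [Fintype ι] (W : Submodule ℝ (V ι)) {k : ℕ} (hk : finrank ℝ W = k) :
    ∃ f : Fin k → ι, Function.Injective f ∧
      ∃ A : Finset ({i // i ∉ Set.range f} → Bool),
        (2 : ℝ) ^ Fintype.card {i // i ∉ Set.range f} ≤
          A.card * (Real.exp (k / 2) * Bd (Fintype.card ι) k) ∧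
        ∀ v ∈ A, ∀ w ∈ A, ∃ x ∈ Wᗮ, (∀ i : {i // i ∉ Set.range f},
          x i.1 = (sgb (v i) - sgb (w i)) / 2) ∧ ∀ j, |x (f j)| < 1 := by
  obtain ⟨f, hf, -, hspan, hG⟩ := greedy k W hk
  refine ⟨f, hf, ?_⟩
  -- the coordinates y(v)
  have hy : ∀ v : {i // i ∉ Set.range f} → Bool, ∃ y : Fin k → ℝ,
      -W.starProjection (hat (fun i => i ∉ Set.range f) v) = ∑ j, y j • bb W (f j) := by
    intro v
    exact hspan _ (W.neg_mem (W.starProjection_apply_mem _))
  choose y hy using hy
  set q : ({i // i ∉ Set.range f} → Bool) → ℝ := fun v =>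
    ‖W.starProjection (hat (fun i => i ∉ Set.range f) v)‖ with hq
  set m : ({i // i ∉ Set.range f} → Bool) → (Fin k → ℤ) := fun v j => rd (y v j) with hm
  set N : (Fin k → ℤ) → ℝ := fun a => ‖∑ j, (a j : ℝ) • bb W (f j)‖ with hN
  have hsq : (Real.sqrt k) ^ 2 = k := Real.sq_sqrt (Nat.cast_nonneg k)
  -- the norm of the rounded combination
  have h1 : ∀ v, 2 * N (m v) ≤ q v + Real.sqrt k := by
    intro v
    have e : (2 : ℝ) • ∑ j, ((m v j : ℤ) : ℝ) • bb W (f j) =
        ∑ j, y v j • bb W (f j) - ∑ j, (y v j - 2 * (m v j : ℝ)) • bb W (f j) := by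
      rw [← Finset.sum_sub_distrib, Finset.smul_sum]
      refine Finset.sum_congr rfl fun j _ => ?_
      rw [← sub_smul, smul_smul]
      congr 1
      ring
    have e2 : 2 * N (m v) = ‖(2 : ℝ) • ∑ j, ((m v j : ℤ) : ℝ) • bb W (f j)‖ := by
      rw [norm_smul]; simp [hN]
    rw [e2, e]
    refine (norm_sub_le _ _).trans ?_
    have e3 : ‖∑ j, y v j • bb W (f j)‖ = q v := by
      rw [← hy v, norm_neg]
    rw [e3]
    have e4 := norm_comb W f hf (fun j => y v j - 2 * (m v j : ℝ)) (by
      intro j
      rw [abs_le]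
      exact ⟨rd_ge _, (rd_lt _).le⟩)
    linarith
  have h2 : ∀ v, Real.exp (-(q v) ^ 2 / 4) ≤
      Real.exp (k / 4) * Real.exp (-(N (m v)) ^ 2 / 2) := by
    intro v
    rw [← Real.exp_add]
    apply Real.exp_le_exp.mpr
    have a1 := h1 v
    have a2 : 0 ≤ N (m v) := norm_nonneg _
    have a3 : 0 ≤ q v := norm_nonneg _
    have a4 := Real.sqrt_nonneg (k : ℝ)
    have a5 : (2 * N (m v)) ^ 2 ≤ (q v + Real.sqrt k) ^ 2 := by
      apply pow_le_pow_left₀ (by positivity) a1
    nlinarith [sq_nonneg (q v - Real.sqrt k)]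
  -- lower bound of the sum
  have h3 : (2 : ℝ) ^ Fintype.card {i // i ∉ Set.range f} * Real.exp (-(k / 4)) ≤
      ∑ v, Real.exp (-(q v) ^ 2 / 4) := by
    have b1 : ∀ v, Real.exp (-(k / 4)) * (1 + ((k : ℝ) - (q v) ^ 2) / 4) ≤
        Real.exp (-(q v) ^ 2 / 4) := by
      intro v
      have : Real.exp (-(q v) ^ 2 / 4) =
          Real.exp (-(k / 4)) * Real.exp (((k : ℝ) - (q v) ^ 2) / 4) := by
        rw [← Real.exp_add]; congr 1; ring
      rw [this]
      apply mul_le_mul_of_nonneg_left _ (Real.exp_pos _).le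
      have := Real.add_one_le_exp (((k : ℝ) - (q v) ^ 2) / 4)
      linarith
    have b2 := sum_q (fun i => i ∉ Set.range f) W
    rw [hk] at b2
    calc (2 : ℝ) ^ Fintype.card {i // i ∉ Set.range f} * Real.exp (-(k / 4))
        ≤ ∑ v, Real.exp (-(k / 4)) * (1 + ((k : ℝ) - (q v) ^ 2) / 4) := by
          rw [← Finset.mul_sum, mul_comm]
          apply mul_le_mul_of_nonneg_left _ (Real.exp_pos _).le
          rw [Finset.sum_add_distrib, ← Finset.sum_div, Finset.sum_sub_distrib]
          simp only [Finset.sum_const, Finset.card_univ, Fintype.card_fun, Fintype.card_bool,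
            nsmul_eq_mul, mul_one, Nat.cast_pow, Nat.cast_ofNat]
          have : ∑ v, q v ^ 2 ≤ 2 ^ Fintype.card {i // i ∉ Set.range f} * (k : ℝ) := by
            have e1 : ∀ (i1 i2 : Fintype {i // i ∉ Set.range f}),
                @Fintype.card _ i1 = @Fintype.card _ i2 := fun i1 i2 => by
              rw [Subsingleton.elim i1 i2]
            have e2 : ∀ (i1 i2 : Fintype ({i // i ∉ Set.range f} → Bool))
                (g : ({i // i ∉ Set.range f} → Bool) → ℝ),
                @Finset.sum _ _ _ (@Finset.univ _ i1) g = @Finset.sum _ _ _ (@Finset.univ _ i2) g :=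
              fun i1 i2 g => by rw [Subsingleton.elim i1 i2]
            refine le_trans (le_of_eq (e2 _ _ _)) (le_trans b2 (le_of_eq ?_))
            rw [e1]
          linarith
      _ ≤ _ := Finset.sum_le_sum fun v _ => b1 v
  -- fibres
  have hne : (Finset.univ.image m).Nonempty :=
    ⟨m (fun _ => true), Finset.mem_image_of_mem _ (Finset.mem_univ _)⟩
  obtain ⟨a, -, ha⟩ := Finset.exists_max_image (Finset.univ.image m)
    (fun a => (Finset.univ.filter fun v => m v = a).card) hne
  have h4 : ∑ v, Real.exp (-(q v) ^ 2 / 4) ≤ Real.exp (k / 4) *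
      ((Finset.univ.filter fun v => m v = a).card * Bd (Fintype.card ι) k) := by
    calc ∑ v, Real.exp (-(q v) ^ 2 / 4)
        ≤ ∑ v, Real.exp (k / 4) * Real.exp (-(N (m v)) ^ 2 / 2) :=
          Finset.sum_le_sum fun v _ => h2 v
      _ = Real.exp (k / 4) * ∑ v, Real.exp (-(N (m v)) ^ 2 / 2) := by rw [Finset.mul_sum]
      _ = Real.exp (k / 4) * ∑ b ∈ Finset.univ.image m,
            ∑ v ∈ Finset.univ.filter (fun v => m v = b), Real.exp (-(N (m v)) ^ 2 / 2) := by
          congr 1
          rw [Finset.sum_fiberwise_of_maps_to]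
          intro v _
          exact Finset.mem_image_of_mem _ (Finset.mem_univ _)
      _ = Real.exp (k / 4) * ∑ b ∈ Finset.univ.image m,
            ((Finset.univ.filter fun v => m v = b).card : ℝ) * Real.exp (-(N b) ^ 2 / 2) := by
          congr 1
          refine Finset.sum_congr rfl fun b _ => ?_
          rw [← nsmul_eq_mul, ← Finset.sum_const]
          refine Finset.sum_congr rfl fun v hv => ?_
          rw [(Finset.mem_filter.mp hv).2]
      _ ≤ Real.exp (k / 4) * ∑ b ∈ Finset.univ.image m,
            ((Finset.univ.filter fun v => m v = a).card : ℝ) * Real.exp (-(N b) ^ 2 / 2) := by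
          apply mul_le_mul_of_nonneg_left _ (Real.exp_pos _).le
          refine Finset.sum_le_sum fun b hb => ?_
          apply mul_le_mul_of_nonneg_right _ (Real.exp_pos _).le
          exact_mod_cast ha b hb
      _ = Real.exp (k / 4) * (((Finset.univ.filter fun v => m v = a).card : ℝ) *
            ∑ b ∈ Finset.univ.image m, Real.exp (-(N b) ^ 2 / 2)) := by
          rw [← Finset.mul_sum]
      _ ≤ _ := by
          apply mul_le_mul_of_nonneg_left _ (Real.exp_pos _).le
          apply mul_le_mul_of_nonneg_left _ (Nat.cast_nonneg _)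
          have c1 := hG 0 (Finset.univ.image m)
          simpa only [map_zero, add_zero] using c1
  refine ⟨Finset.univ.filter fun v => m v = a, ?_, ?_⟩
  · have h5 := h3.trans h4
    have e1 : Real.exp (k / 2) = Real.exp (k / 4) * Real.exp (k / 4) := by
      rw [← Real.exp_add]; congr 1; ring
    have e2 : Real.exp (-((k : ℝ) / 4)) * Real.exp (k / 4) = 1 := by
      rw [← Real.exp_add]; simp
    have h6 := mul_le_mul_of_nonneg_right h5 (Real.exp_pos ((k : ℝ) / 4)).le
    calc (2 : ℝ) ^ Fintype.card {i // i ∉ Set.range f}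
        = 2 ^ Fintype.card {i // i ∉ Set.range f} * Real.exp (-(k / 4)) *
            Real.exp (k / 4) := by rw [mul_assoc, e2, mul_one]
      _ ≤ _ := h6
      _ = _ := by rw [e1]; ring
  · intro v hv w hw
    have hv' : m v = a := (Finset.mem_filter.mp hv).2
    have hw' : m w = a := (Finset.mem_filter.mp hw).2
    refine ⟨(1 / 2 : ℝ) • (hat (fun i => i ∉ Set.range f) v - hat (fun i => i ∉ Set.range f) w +
      ∑ j, (y v j - y w j) • (EuclideanSpace.single (f j) (1 : ℝ) : V ι)), ?_, ?_, ?_⟩
    · rw [← Submodule.starProjection_apply_eq_zero_iff]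
      rw [map_smul, map_add, map_sub, map_sum]
      have e : ∑ j, W.starProjection ((y v j - y w j) • (EuclideanSpace.single (f j) (1 : ℝ) : V ι)) =
          ∑ j, y v j • bb W (f j) - ∑ j, y w j • bb W (f j) := by
        rw [← Finset.sum_sub_distrib]
        refine Finset.sum_congr rfl fun j _ => ?_
        rw [map_smul, sub_smul]
        rfl
      rw [e, ← hy v, ← hy w]
      simp
    · intro i
      have e0 : ∀ j, (EuclideanSpace.single (f j) (1 : ℝ) : V ι) i.1 = 0 := by
        intro j
        have : i.1 ≠ f j := fun h => i.2 ⟨j, h.symm⟩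
        simp [this]
      have e1 : ∀ u : {i // i ∉ Set.range f} → Bool,
          (hat (fun i => i ∉ Set.range f) u) i.1 = sgb (u i) := by
        intro u
        simp only [hat]
        rw [dif_pos i.2]
      simp only [PiLp.smul_apply, PiLp.add_apply, PiLp.sub_apply, WithLp.ofLp_sum,
        Finset.sum_apply, smul_eq_mul, e0, e1]
      simp
      ring
    · intro j
      have e1 : ∀ u : {i // i ∉ Set.range f} → Bool,
          (hat (fun i => i ∉ Set.range f) u) (f j) = 0 := by
        intro u
        simp only [hat]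
        rw [dif_neg]
        simp
      have e0 : ∑ l, (y v l - y w l) * (EuclideanSpace.single (f l) (1 : ℝ) : V ι) (f j) =
          y v j - y w j := by
        rw [Finset.sum_eq_single j]
        · simp
        · intro l _ hl
          have : f j ≠ f l := fun h => hl (hf h).symm
          simp [this]
        · simp
      simp only [PiLp.smul_apply, PiLp.add_apply, PiLp.sub_apply, WithLp.ofLp_sum,
        Finset.sum_apply, smul_eq_mul, e1]
      rw [e0]
      have g1 := rd_ge (y v j)
      have g2 := rd_lt (y v j)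
      have g3 := rd_ge (y w j)
      have g4 := rd_lt (y w j)
      have g5 : rd (y v j) = rd (y w j) := by
        have := congrFun (hv'.trans hw'.symm) j
        exact this
      rw [g5] at g1 g2
      rw [abs_lt]
      constructor <;> linarith

end

end Pool.Agent.FF
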