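import Pool.Agent.FF.Defs

/-! ff_modules row G1 (helper44): a Gaussian sum over integers. -/

set_option autoImplicit false

open scoped BigOperators RealInnerProductSpace Classical

namespace Pool.Agent.FF

noncomputable section

open Module Pool.Agent.GRD

/-! ### ROW G1 -/

private theorem g1_integrable (r : ℝ) (h0 : 0 < r) (s : ℝ) :
    MeasureTheory.Integrable (fun t : ℝ => Real.exp (-(r * t + s) ^ 2 / 2)) := by
  have h1 : MeasureTheory.Integrable (fun y : ℝ => Real.exp (-(1 / 2) * y ^ 2)) :=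
    integrable_exp_neg_mul_sq (by norm_num)
  have h2 := (h1.comp_add_right s).comp_mul_left' h0.ne'
  refine h2.congr (Filter.Eventually.of_forall fun t => ?_)
  simp only
  congr 1
  ring

private theorem g1_integral (r : ℝ) (h0 : 0 < r) (s : ℝ) :
    ∫ t : ℝ, Real.exp (-(r * t + s) ^ 2 / 2) = Real.sqrt (2 * Real.pi) / r := by
  have h1 : ∫ t : ℝ, Real.exp (-(r * t + s) ^ 2 / 2) =
      ∫ t : ℝ, (fun y : ℝ => Real.exp (-(1 / 2) * (y + s) ^ 2)) (r * t) := by
    apply MeasureTheory.integral_congr_ae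
    refine Filter.Eventually.of_forall fun t => ?_
    simp only
    congr 1
    ring
  have h1' := MeasureTheory.Measure.integral_comp_mul_left
    (fun y : ℝ => Real.exp (-(1 / 2) * (y + s) ^ 2)) r
  have h1'' := MeasureTheory.integral_add_right_eq_self (μ := MeasureTheory.volume)
    (fun y : ℝ => Real.exp (-(1 / 2) * y ^ 2)) s
  rw [h1, h1', h1'', integral_gaussian, abs_of_pos (inv_pos.2 h0), smul_eq_mul]
  have h2 : Real.pi / (1 / 2) = 2 * Real.pi := by ring
  rw [h2]
  field_simp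

private theorem g1_lin (c m : ℝ) : ∫ t in (m - 1 / 2)..(m + 1 / 2), (1 - c * (t - m)) = 1 := by
  have h : ∀ t ∈ Set.uIcc (m - 1 / 2) (m + 1 / 2),
      HasDerivAt (fun t : ℝ => t - c * (t - m) ^ 2 / 2) (1 - c * (t - m)) t := by
    intro t _
    have h1 : HasDerivAt (fun t : ℝ => (t - m) ^ 2) (2 * (t - m)) t := by
      have := ((hasDerivAt_id' t).sub_const m).fun_pow 2
      simpa using this
    have h2 := (hasDerivAt_id t).sub ((h1.const_mul c).div_const 2)
    refine h2.congr_deriv ?_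
    ring
  rw [intervalIntegral.integral_eq_sub_of_hasDerivAt h
    (Continuous.intervalIntegrable (by fun_prop) _ _)]
  ring

private theorem g1_one (r : ℝ) (h0 : 0 < r) (h1 : r ≤ 1) (s m : ℝ) :
    Real.exp (-(r * m + s) ^ 2 / 2) ≤
      Real.exp (1 / 8) * ∫ t in (m - 1 / 2)..(m + 1 / 2), Real.exp (-(r * t + s) ^ 2 / 2) := by
  have h2 : ∫ t in (m - 1 / 2)..(m + 1 / 2),
      Real.exp (-(r * m + s) ^ 2 / 2) * Real.exp (-(1 / 8)) * (1 - (r * m + s) * r * (t - m)) ≤
      ∫ t in (m - 1 / 2)..(m + 1 / 2), Real.exp (-(r * t + s) ^ 2 / 2) := by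
    apply intervalIntegral.integral_mono_on (by linarith)
    · exact Continuous.intervalIntegrable (by fun_prop) _ _
    · exact Continuous.intervalIntegrable (by fun_prop) _ _
    · intro t ht
      have h3 : (t - m) ^ 2 ≤ 1 / 4 := by
        have h4 : |t - m| ≤ 1 / 2 := abs_le.2 ⟨by linarith [ht.1], by linarith [ht.2]⟩
        nlinarith [sq_abs (t - m), abs_nonneg (t - m)]
      have h5 : r ^ 2 * (t - m) ^ 2 ≤ 1 / 4 := by
        have h6 : r ^ 2 ≤ 1 := by nlinarith
        calc r ^ 2 * (t - m) ^ 2 ≤ 1 * (1 / 4) :=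
              mul_le_mul h6 h3 (sq_nonneg _) (by norm_num)
          _ = 1 / 4 := by norm_num
      have h7 : 1 - (r * m + s) * r * (t - m) ≤ Real.exp (-((r * m + s) * r * (t - m))) := by
        have := Real.add_one_le_exp (-((r * m + s) * r * (t - m)))
        linarith
      have h8 : 0 ≤ Real.exp (-(r * m + s) ^ 2 / 2) * Real.exp (-(1 / 8)) := by positivity
      calc Real.exp (-(r * m + s) ^ 2 / 2) * Real.exp (-(1 / 8)) * (1 - (r * m + s) * r * (t - m))
          ≤ Real.exp (-(r * m + s) ^ 2 / 2) * Real.exp (-(1 / 8)) *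
            Real.exp (-((r * m + s) * r * (t - m))) := mul_le_mul_of_nonneg_left h7 h8
        _ = Real.exp (-(r * m + s) ^ 2 / 2 + -(1 / 8) + -((r * m + s) * r * (t - m))) := by
            rw [Real.exp_add, Real.exp_add]
        _ ≤ Real.exp (-(r * t + s) ^ 2 / 2) := by
            apply Real.exp_le_exp.2
            nlinarith
  rw [intervalIntegral.integral_const_mul, g1_lin, mul_one] at h2
  calc Real.exp (-(r * m + s) ^ 2 / 2)
      = Real.exp (1 / 8) * (Real.exp (-(r * m + s) ^ 2 / 2) * Real.exp (-(1 / 8))) := by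
        have : Real.exp (1 / 8) * Real.exp (-(1 / 8)) = 1 := by
          rw [← Real.exp_add]; norm_num
        linear_combination (-Real.exp (-(r * m + s) ^ 2 / 2)) * this
    _ ≤ _ := mul_le_mul_of_nonneg_left h2 (Real.exp_pos _).le

theorem gsum (r : ℝ) (h0 : 0 < r) (h1 : r ≤ 1) (s : ℝ) (F : Finset ℤ) :
    ∑ m ∈ F, Real.exp (-(r * m + s) ^ 2 / 2) ≤ Cg / r := by
  have hint := g1_integrable r h0 s
  have h2 : ∑ m ∈ F, Real.exp (-(r * m + s) ^ 2 / 2) ≤
      ∑ m ∈ F, Real.exp (1 / 8) *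
        ∫ t in Set.Ioc ((m : ℝ) - 1 / 2) ((m : ℝ) + 1 / 2), Real.exp (-(r * t + s) ^ 2 / 2) := by
    apply Finset.sum_le_sum
    intro m _
    have := g1_one r h0 h1 s m
    rwa [intervalIntegral.integral_of_le (by linarith)] at this
  rw [← Finset.mul_sum] at h2
  have h3 : ∑ m ∈ F, ∫ t in Set.Ioc ((m : ℝ) - 1 / 2) ((m : ℝ) + 1 / 2),
      Real.exp (-(r * t + s) ^ 2 / 2) =
      ∫ t in ⋃ m ∈ F, Set.Ioc ((m : ℝ) - 1 / 2) ((m : ℝ) + 1 / 2),
        Real.exp (-(r * t + s) ^ 2 / 2) := by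
    symm
    apply MeasureTheory.integral_biUnion_finset
    · intro m _
      exact measurableSet_Ioc
    · intro m _ m' _ hne
      rw [Function.onFun, Set.disjoint_left]
      intro t ht ht'
      apply hne
      have e1 : (m : ℝ) < m' + 1 := by linarith [ht.1, ht'.2]
      have e2 : (m' : ℝ) < m + 1 := by linarith [ht.2, ht'.1]
      have e3 : m < m' + 1 := by exact_mod_cast e1
      have e4 : m' < m + 1 := by exact_mod_cast e2
      omega
    · intro m _
      exact hint.integrableOn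
  have h4 : ∫ t in ⋃ m ∈ F, Set.Ioc ((m : ℝ) - 1 / 2) ((m : ℝ) + 1 / 2),
      Real.exp (-(r * t + s) ^ 2 / 2) ≤ ∫ t : ℝ, Real.exp (-(r * t + s) ^ 2 / 2) :=
    MeasureTheory.setIntegral_le_integral hint
      (Filter.Eventually.of_forall fun t => (Real.exp_pos _).le)
  rw [h3] at h2
  calc ∑ m ∈ F, Real.exp (-(r * m + s) ^ 2 / 2)
      ≤ Real.exp (1 / 8) * ∫ t : ℝ, Real.exp (-(r * t + s) ^ 2 / 2) :=
        h2.trans (mul_le_mul_of_nonneg_left h4 (Real.exp_pos _).le)
    _ = Cg / r := by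
        rw [g1_integral r h0 s, Cg]
        ring

end

end Pool.Agent.FF
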