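import Pool.Agent.FF.Defs

/-!
# Greedy choice of coordinates
-/

set_option autoImplicit false

open scoped BigOperators RealInnerProductSpace Classical

namespace Pool.Agent.FF

noncomputable section

open Module

theorem inner_bb {ι : Type} [Fintype ι] (W : Submodule ℝ (V ι)) (i : ι) {w : V ι} (hw : w ∈ W) :
    ⟪w, bb W i⟫ = w i := by
  unfold bb
  rw [← Submodule.inner_starProjection_left_eq_right, Submodule.starProjection_eq_self_iff.2 hw,
    EuclideanSpace.inner_single_right]
  simp

theorem sum_bb {ι : Type} [Fintype ι] (W : Submodule ℝ (V ι)) :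
    ∑ i, ‖bb W i‖ ^ 2 = finrank ℝ W := by
  set u := stdOrthonormalBasis ℝ W with hu
  have h1 : ∀ i, ‖bb W i‖ ^ 2 = ∑ l, ((u l : V ι) i) ^ 2 := by
    intro i
    have hm : bb W i ∈ W := Submodule.starProjection_apply_mem W _
    have h2 := u.sum_sq_norm_inner_right (⟨bb W i, hm⟩ : W)
    have h3 : ‖(⟨bb W i, hm⟩ : W)‖ = ‖bb W i‖ := rfl
    rw [← h3, ← h2]
    refine Finset.sum_congr rfl fun l _ => ?_
    rw [Submodule.coe_inner, Real.norm_eq_abs, sq_abs, inner_bb W i (u l).2]
  simp_rw [h1]
  rw [Finset.sum_comm]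
  have h3 : ∀ l, ∑ i, ((u l : V ι) i) ^ 2 = 1 := by
    intro l
    have h4 : ‖(u l : V ι)‖ = 1 := u.orthonormal.1 l
    rw [← EuclideanSpace.real_norm_sq_eq, h4, one_pow]
  simp_rw [h3]
  simp

theorem card_pos {ι : Type} [Fintype ι] (W : Submodule ℝ (V ι)) {k : ℕ}
    (hk : finrank ℝ W = k + 1) : 0 < Fintype.card ι := by
  have h1 := W.finrank_le
  rw [hk, finrank_euclideanSpace] at h1
  omega

theorem exists_big {ι : Type} [Fintype ι] (W : Submodule ℝ (V ι)) {k : ℕ}
    (hk : finrank ℝ W = k + 1) :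
    ∃ i, ((k : ℝ) + 1) / Fintype.card ι ≤ ‖bb W i‖ ^ 2 := by
  have hn : (0 : ℝ) < Fintype.card ι := by exact_mod_cast card_pos W hk
  by_contra hcon
  push Not at hcon
  have : Nonempty ι := Fintype.card_pos_iff.1 (card_pos W hk)
  have h1 := Finset.sum_lt_sum_of_nonempty (Finset.univ_nonempty (α := ι)) (fun i _ => hcon i)
  rw [sum_bb, hk, Finset.sum_const, Finset.card_univ, nsmul_eq_mul,
    mul_div_cancel₀ _ hn.ne'] at h1
  push_cast at h1
  exact lt_irrefl _ h1

/-- decomposition along the first vector -/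
theorem proj_dec {ι : Type} [Fintype ι] (W : Submodule ℝ (V ι)) (i : ι) (h : bb W i ≠ 0)
    (x : V ι) :
    W.starProjection x = ((ℝ ∙ bb W i)ᗮ ⊓ W).starProjection x +
      (⟪bb W i, x⟫ / ‖bb W i‖ ^ 2) • bb W i := by
  set β := bb W i with hβ
  have hβW : β ∈ W := Submodule.starProjection_apply_mem W _
  have hr : ‖β‖ ^ 2 ≠ 0 := by
    have := norm_pos_iff.2 h
    positivity
  have hbx : ⟪β, W.starProjection x⟫ = ⟪β, x⟫ := by
    rw [← Submodule.inner_starProjection_left_eq_right, Submodule.starProjection_eq_self_iff.2 hβW]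
  have h1 : ((ℝ ∙ β)ᗮ ⊓ W).starProjection x =
      W.starProjection x - (⟪β, x⟫ / ‖β‖ ^ 2) • β := by
    apply Submodule.eq_starProjection_of_mem_of_inner_eq_zero
    · refine ⟨?_, W.sub_mem (Submodule.starProjection_apply_mem W _) (W.smul_mem _ hβW)⟩
      rw [SetLike.mem_coe, Submodule.mem_orthogonal_singleton_iff_inner_right, inner_sub_right, hbx,
        inner_smul_right, real_inner_self_eq_norm_sq, div_mul_cancel₀ _ hr, sub_self]
    · rintro w ⟨hw1, hw2⟩
      rw [SetLike.mem_coe, Submodule.mem_orthogonal_singleton_iff_inner_right] at hw1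
      rw [← sub_add, inner_add_left, Submodule.starProjection_inner_eq_zero x w hw2,
        real_inner_smul_left, hw1, mul_zero, add_zero]
  rw [h1, sub_add_cancel]

theorem bb_self {ι : Type} [Fintype ι] (W : Submodule ℝ (V ι)) (i : ι) (h : bb W i ≠ 0) :
    bb ((ℝ ∙ bb W i)ᗮ ⊓ W) i = 0 := by
  have h1 := proj_dec W i h (EuclideanSpace.single i 1)
  have hβW : bb W i ∈ W := Submodule.starProjection_apply_mem W _
  have hr : ‖bb W i‖ ^ 2 ≠ 0 := by
    have := norm_pos_iff.2 h
    positivity
  have h2 : ⟪bb W i, EuclideanSpace.single i (1 : ℝ)⟫ = ‖bb W i‖ ^ 2 := by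
    rw [← real_inner_self_eq_norm_sq, inner_bb W i hβW, EuclideanSpace.inner_single_right]
    simp
  rw [h2, div_self hr, one_smul] at h1
  have h3 : bb W i = bb ((ℝ ∙ bb W i)ᗮ ⊓ W) i + bb W i := h1
  simpa using h3.symm

theorem greedy_of (hG : ∀ (r : ℝ), 0 < r → r ≤ 1 → ∀ (s : ℝ) (F : Finset ℤ),
      ∑ m ∈ F, Real.exp (-(r * m + s) ^ 2 / 2) ≤ Cg / r)
    {ι : Type} [Fintype ι] (k : ℕ) : ∀ (W : Submodule ℝ (V ι)), finrank ℝ W = k →
    ∃ f : Fin k → ι, Function.Injective f ∧ (∀ j, bb W (f j) ≠ 0) ∧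
      (∀ w ∈ W, ∃ y : Fin k → ℝ, w = ∑ j, y j • bb W (f j)) ∧
      ∀ (w₀ : V ι) (F : Finset (Fin k → ℤ)),
        ∑ m ∈ F, Real.exp (-‖∑ j, (m j : ℝ) • bb W (f j) + W.starProjection w₀‖ ^ 2 / 2) ≤
          Bd (Fintype.card ι) k := by
  induction k with
  | zero =>
    intro W hW
    refine ⟨Fin.elim0, fun i => i.elim0, fun i => i.elim0, ?_, ?_⟩
    · intro w hw
      refine ⟨fun _ => 0, ?_⟩
      have hbot := Submodule.finrank_eq_zero.1 hW
      rw [hbot, Submodule.mem_bot] at hw
      simp [hw]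
    · intro w₀ F
      have h1 : F.card ≤ 1 := Finset.card_le_one_of_subsingleton F
      calc _ ≤ ∑ _m ∈ F, (1 : ℝ) := by
            apply Finset.sum_le_sum
            intro m _
            rw [Real.exp_le_one_iff]
            have := sq_nonneg ‖∑ j : Fin 0, (m j : ℝ) • bb W (Fin.elim0 j) + W.starProjection w₀‖
            linarith
        _ = (F.card : ℝ) := by simp
        _ ≤ 1 := by exact_mod_cast h1
        _ = Bd (Fintype.card ι) 0 := by simp [Bd]
  | succ k ih =>
    intro W hW
    obtain ⟨i, hi⟩ := exists_big W hW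
    have hn : (0 : ℝ) < Fintype.card ι := by exact_mod_cast card_pos W hW
    have hpos : (0 : ℝ) < ((k : ℝ) + 1) / Fintype.card ι := by positivity
    have hβ0 : bb W i ≠ 0 := by
      intro h0
      rw [h0, norm_zero] at hi
      norm_num at hi
      linarith
    have hdec := proj_dec W i hβ0
    have hself := bb_self W i hβ0
    set β := bb W i with hβ
    set W' := (ℝ ∙ β)ᗮ ⊓ W with hW'
    have hβW : β ∈ W := Submodule.starProjection_apply_mem W _
    set r := ‖β‖ with hr
    have hr0 : 0 < r := norm_pos_iff.2 hβ0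
    have hr1 : r ≤ 1 := by
      have := W.norm_starProjection_apply_le (EuclideanSpace.single i (1 : ℝ))
      rw [PiLp.norm_single, norm_one] at this
      exact this
    have hfr : finrank ℝ W' = k := by
      have h1 := Submodule.finrank_add_inf_finrank_orthogonal
        (K₁ := (ℝ ∙ β)) (K₂ := W) (by
          rw [Submodule.span_singleton_le_iff_mem]; exact hβW)
      rw [finrank_span_singleton hβ0, hW] at h1
      rw [hW']; omega
    obtain ⟨f', hf1, hf2, hf3, hf4⟩ := ih W' hfr
    have hle : W' ≤ W := inf_le_right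
    refine ⟨Fin.cons i f', ?_, ?_, ?_, ?_⟩
    · rw [Fin.cons_injective_iff]
      refine ⟨?_, hf1⟩
      rintro ⟨j, hj⟩
      exact hf2 j (by rw [hj]; exact hself)
    · intro j
      refine Fin.cases ?_ (fun j => ?_) j
      · exact hβ0
      · rw [Fin.cons_succ]
        intro h0
        apply hf2 j
        have h1 := DFunLike.congr_fun (Submodule.starProjection_comp_starProjection_of_le hle)
          (EuclideanSpace.single (f' j) (1 : ℝ))
        rw [ContinuousLinearMap.comp_apply] at h1
        have h2 : W.starProjection (EuclideanSpace.single (f' j) (1 : ℝ)) = 0 := h0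
        rw [h2, map_zero] at h1
        exact h1.symm
    · intro w hw
      obtain ⟨y, hy⟩ := hf3 (W'.starProjection w) (Submodule.starProjection_apply_mem W' _)
      have h1 : w = W'.starProjection w + (⟪β, w⟫ / r ^ 2) • β := by
        have h1 := hdec w
        rwa [Submodule.starProjection_eq_self_iff.2 hw] at h1
      have h2 : ∀ j, bb W' (f' j) = bb W (f' j) -
          (⟪β, EuclideanSpace.single (f' j) (1 : ℝ)⟫ / r ^ 2) • β := by
        intro j
        rw [eq_sub_iff_add_eq]
        exact (hdec _).symm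
      refine ⟨Fin.cons (⟪β, w⟫ / r ^ 2 - ∑ j, y j *
        (⟪β, EuclideanSpace.single (f' j) (1 : ℝ)⟫ / r ^ 2)) y, ?_⟩
      rw [Fin.sum_univ_succ]
      simp only [Fin.cons_zero, Fin.cons_succ]
      refine h1.trans ?_
      rw [hy]
      simp_rw [h2, smul_sub, Finset.sum_sub_distrib, smul_smul]
      rw [sub_smul, Finset.sum_smul, ← hβ]
      abel
    · intro w₀ F
      have hCg : 0 ≤ Cg := by unfold Cg; positivity
      -- the sum over the first variable
      have hkey : ∀ (a : ℤ) (m : Fin k → ℤ),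
          Real.exp (-‖∑ j, (((Fin.cons a m : Fin (k + 1) → ℤ) j : ℤ) : ℝ) •
            bb W ((Fin.cons i f' : Fin (k + 1) → ι) j) + W.starProjection w₀‖ ^ 2 / 2) =
          Real.exp (-(r * a + r * (⟪β, ∑ j, (m j : ℝ) • EuclideanSpace.single (f' j) (1 : ℝ) +
            w₀⟫ / r ^ 2)) ^ 2 / 2) *
          Real.exp (-‖∑ j, (m j : ℝ) • bb W' (f' j) + W'.starProjection w₀‖ ^ 2 / 2) := by
        intro a m
        set x : V ι := ∑ j, (m j : ℝ) • EuclideanSpace.single (f' j) (1 : ℝ) + w₀ with hx
        have e1 : ∑ j, (((Fin.cons a m : Fin (k + 1) → ℤ) j : ℤ) : ℝ) •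
            bb W ((Fin.cons i f' : Fin (k + 1) → ι) j) + W.starProjection w₀ =
            ((a : ℝ) + ⟪β, x⟫ / r ^ 2) • β + W'.starProjection x := by
          rw [Fin.sum_univ_succ]
          simp only [Fin.cons_zero, Fin.cons_succ]
          have e2 : W.starProjection x = ∑ j, (m j : ℝ) • bb W (f' j) + W.starProjection w₀ := by
            rw [hx, map_add, map_sum]
            simp_rw [map_smul]
            rfl
          rw [add_assoc, ← e2, hdec x, add_smul]
          abel
        have e3 : ∑ j, (m j : ℝ) • bb W' (f' j) + W'.starProjection w₀ = W'.starProjection x := by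
          rw [hx, map_add, map_sum]
          simp_rw [map_smul]
          rfl
        rw [e1, e3, ← Real.exp_add]
        congr 1
        have horth : ⟪((a : ℝ) + ⟪β, x⟫ / r ^ 2) • β, W'.starProjection x⟫ = 0 := by
          have hm : W'.starProjection x ∈ W' := Submodule.starProjection_apply_mem W' x
          have h3 := hm.1
          rw [SetLike.mem_coe, Submodule.mem_orthogonal_singleton_iff_inner_right] at h3
          rw [real_inner_smul_left, h3, mul_zero]
        have h4 := norm_add_sq_eq_norm_sq_add_norm_sq_of_inner_eq_zero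
          (((a : ℝ) + ⟪β, x⟫ / r ^ 2) • β) (W'.starProjection x) horth
        rw [← pow_two, ← pow_two, ← pow_two] at h4
        rw [h4, norm_smul, mul_pow, Real.norm_eq_abs, sq_abs, ← hr]
        ring
      have hF : F ⊆ ((F.image fun m => m 0) ×ˢ (F.image fun m => Fin.tail m)).image
          (fun p => (Fin.cons p.1 p.2 : Fin (k + 1) → ℤ)) := by
        intro m hm
        rw [Finset.mem_image]
        refine ⟨(m 0, Fin.tail m), ?_, ?_⟩
        · rw [Finset.mem_product]
          exact ⟨Finset.mem_image_of_mem _ hm, Finset.mem_image_of_mem _ hm⟩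
        · exact Fin.cons_self_tail m
      refine (Finset.sum_le_sum_of_subset_of_nonneg hF (fun _ _ _ => (Real.exp_pos _).le)).trans ?_
      rw [Finset.sum_image (by
        rintro ⟨a, m⟩ _ ⟨a', m'⟩ _ h
        have h' : (Fin.cons a m : Fin (k + 1) → ℤ) = Fin.cons a' m' := h
        rw [Fin.cons_inj] at h'
        exact Prod.ext h'.1 h'.2), Finset.sum_product_right]
      simp_rw [hkey]
      have h5 : ∀ m ∈ (F.image fun m => Fin.tail m),
          ∑ a ∈ (F.image fun m => m 0),
            Real.exp (-(r * a + r * (⟪β, ∑ j, (m j : ℝ) • EuclideanSpace.single (f' j) (1 : ℝ) +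
              w₀⟫ / r ^ 2)) ^ 2 / 2) *
            Real.exp (-‖∑ j, (m j : ℝ) • bb W' (f' j) + W'.starProjection w₀‖ ^ 2 / 2) ≤
          Cg / r * Real.exp (-‖∑ j, (m j : ℝ) • bb W' (f' j) + W'.starProjection w₀‖ ^ 2 / 2) := by
        intro m _
        rw [← Finset.sum_mul]
        exact mul_le_mul_of_nonneg_right (hG r hr0 hr1 _ _) (Real.exp_pos _).le
      refine (Finset.sum_le_sum h5).trans ?_
      rw [← Finset.mul_sum]
      have h6 := hf4 w₀ (F.image fun m => Fin.tail m)
      have h7 : Cg / r ≤ Cg * Real.sqrt (Fintype.card ι / ((k : ℝ) + 1)) := by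
        rw [div_eq_mul_inv]
        apply mul_le_mul_of_nonneg_left _ hCg
        apply Real.le_sqrt_of_sq_le
        rw [inv_pow, inv_le_comm₀ (by positivity) (by positivity), inv_div]
        exact hi
      have h8 : 0 ≤ ∑ m ∈ (F.image fun m => Fin.tail m),
          Real.exp (-‖∑ j, (m j : ℝ) • bb W' (f' j) + W'.starProjection w₀‖ ^ 2 / 2) :=
        Finset.sum_nonneg fun _ _ => (Real.exp_pos _).le
      calc _ ≤ (Cg * Real.sqrt (Fintype.card ι / ((k : ℝ) + 1))) * Bd (Fintype.card ι) k := by
            apply mul_le_mul h7 h6 h8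
            positivity
        _ = Bd (Fintype.card ι) (k + 1) := by
            rw [Bd, Bd, Finset.prod_range_succ, mul_comm]

end

end Pool.Agent.FF
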