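import Pool.Agent.FF.G1
import Pool.Agent.FF.G2

/-!
# Greedy choice of coordinates, with the Gaussian sum
-/

set_option autoImplicit false

open scoped BigOperators RealInnerProductSpace Classical

namespace Pool.Agent.FF

noncomputable section

open Module

theorem greedy {ι : Type} [Fintype ι] (k : ℕ) : ∀ (W : Submodule ℝ (V ι)), finrank ℝ W = k →
    ∃ f : Fin k → ι, Function.Injective f ∧ (∀ j, bb W (f j) ≠ 0) ∧
      (∀ w ∈ W, ∃ y : Fin k → ℝ, w = ∑ j, y j • bb W (f j)) ∧
      ∀ (w₀ : V ι) (F : Finset (Fin k → ℤ)),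
        ∑ m ∈ F, Real.exp (-‖∑ j, (m j : ℝ) • bb W (f j) + W.starProjection w₀‖ ^ 2 / 2) ≤
          Bd (Fintype.card ι) k :=
  greedy_of (fun r h0 h1 s F => gsum r h0 h1 s F) k

end

end Pool.Agent.FF
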