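import Pool.Agent.FF.Defs

/-!
# Row W: the number of differences of two sets of boolean vectors
-/

set_option autoImplicit false

open scoped BigOperators RealInnerProductSpace Classical

namespace Pool.Agent.FF

noncomputable section

open Module Pool.Agent.GRD

/-- the fibre over the first coordinate `c` -/
private def W_sl {α : Type} [Fintype α] {n : ℕ} (S : Finset (Fin (n + 1) → α)) (c : α) :
    Finset (Fin n → α) := Finset.univ.filter (fun t => (Fin.cons c t : Fin (n + 1) → α) ∈ S)

private theorem W_mem {α : Type} [Fintype α] {n : ℕ} {S : Finset (Fin (n + 1) → α)} {c : α}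
    {t : Fin n → α} : t ∈ W_sl S c ↔ (Fin.cons c t : Fin (n + 1) → α) ∈ S := by
  unfold W_sl
  rw [Finset.mem_filter]
  exact ⟨fun h => h.2, fun h => ⟨Finset.mem_univ _, h⟩⟩

private theorem W_card {α : Type} [Fintype α] {n : ℕ} (S : Finset (Fin (n + 1) → α)) :
    S.card = ∑ c : α, (W_sl S c).card := by
  rw [Finset.card_eq_sum_card_fiberwise (f := fun g : Fin (n + 1) → α => g 0)
    (t := Finset.univ) (fun _ _ => Finset.mem_univ _)]
  refine Finset.sum_congr rfl fun c _ => ?_
  refine Finset.card_bij' (fun g _ => Fin.tail g) (fun t _ => (Fin.cons c t : Fin (n + 1) → α))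
    ?_ ?_ ?_ ?_
  · intro g hg
    rw [Finset.mem_filter] at hg
    rw [W_mem, ← hg.2, Fin.cons_self_tail]
    exact hg.1
  · intro t ht
    rw [W_mem] at ht
    rw [Finset.mem_filter]
    exact ⟨ht, Fin.cons_zero _ _⟩
  · intro g hg
    rw [Finset.mem_filter] at hg
    show (Fin.cons c (Fin.tail g) : Fin (n + 1) → α) = g
    rw [← hg.2, Fin.cons_self_tail]
  · intro t ht
    exact Fin.tail_cons _ _

private theorem W_num (a0 a1 b0 b1 : ℕ) :
    3 * ((a0 + a1) * (b0 + b1)) ≤ 4 * (max (a0 * b0) (a1 * b1) + a1 * b0 + a0 * b1) := by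
  have key : ∀ x y z w : ℕ, y * w ≤ x * z →
      3 * ((x + y) * (z + w)) ≤ 4 * (x * z + y * z + x * w) := by
    intro x y z w h
    have h1 : 2 * (y * w) ≤ y * z + x * w := by
      have h2 : (2 * (y * w)) ^ 2 ≤ (y * z + x * w) ^ 2 := by
        have h3 : 4 * ((y * z) * (x * w)) ≤ (y * z + x * w) ^ 2 := by
          zify
          nlinarith [sq_nonneg ((y : ℤ) * z - x * w)]
        have h4 : (2 * (y * w)) ^ 2 ≤ 4 * ((y * z) * (x * w)) := by
          have : (y * w) * (y * w) ≤ (y * w) * (x * z) := Nat.mul_le_mul_left _ h
          nlinarith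
        exact h4.trans h3
      exact (Nat.pow_le_pow_iff_left two_ne_zero).1 h2
    nlinarith
  rcases le_total (a1 * b1) (a0 * b0) with h | h
  · rw [max_eq_left h]
    exact key a0 a1 b0 b1 h
  · rw [max_eq_right h]
    have := key a1 a0 b1 b0 h
    nlinarith

/-- the difference set -/
private def W_D {J : Type} [Fintype J] (A B : Finset (J → Bool)) : Finset (J → ZMod 3) :=
  Finset.image₂ (fun v w j => df (v j) (w j)) A B

private theorem W_sub {n : ℕ} (A B : Finset (Fin (n + 1) → Bool)) (a b : Bool) :
    W_D (W_sl A a) (W_sl B b) ⊆ W_sl (W_D A B) (df a b) := by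
  intro t ht
  unfold W_D at ht
  rw [Finset.mem_image₂] at ht
  obtain ⟨v, hv, w, hw, rfl⟩ := ht
  rw [W_mem] at hv hw
  rw [W_mem]
  unfold W_D
  rw [Finset.mem_image₂]
  refine ⟨_, hv, _, hw, ?_⟩
  funext j
  refine Fin.cases ?_ (fun i => ?_) j
  · simp
  · simp

private theorem W_sum3 (f : ZMod 3 → ℕ) : ∑ c, f c = f 0 + f 1 + f (-1) := by
  have h : (-1 : ZMod 3) = 2 := by decide
  rw [h]
  exact Fin.sum_univ_three f

private theorem W_fin : ∀ (n : ℕ) (A B : Finset (Fin n → Bool)),
    3 ^ n * (A.card * B.card) ≤ 4 ^ n * (W_D A B).card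
  | 0, A, B => by
    rw [pow_zero, pow_zero, one_mul, one_mul]
    have hA : A.card ≤ 1 := by
      have := Finset.card_le_univ A
      simpa using this
    have hB : B.card ≤ 1 := by
      have := Finset.card_le_univ B
      simpa using this
    by_cases hA0 : A.card = 0
    · rw [hA0]; simp
    by_cases hB0 : B.card = 0
    · rw [hB0]; simp
    have h1 : A.Nonempty := Finset.card_pos.1 (Nat.pos_of_ne_zero hA0)
    have h2 : B.Nonempty := Finset.card_pos.1 (Nat.pos_of_ne_zero hB0)
    have h3 : (W_D A B).Nonempty := by
      unfold W_D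
      exact Finset.Nonempty.image₂ h1 h2
    have h4 := Finset.card_pos.2 h3
    calc A.card * B.card ≤ 1 * 1 := Nat.mul_le_mul hA hB
      _ ≤ _ := h4
  | n + 1, A, B => by
    have ih := W_fin n
    have cA : A.card = (W_sl A false).card + (W_sl A true).card := by
      rw [W_card A, Fintype.sum_bool, add_comm]
    have cB : B.card = (W_sl B false).card + (W_sl B true).card := by
      rw [W_card B, Fintype.sum_bool, add_comm]
    have cD : (W_D A B).card = (W_sl (W_D A B) 0).card + (W_sl (W_D A B) 1).card +
        (W_sl (W_D A B) (-1)).card := by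
      rw [W_card (W_D A B), W_sum3]
    have i00 := (ih (W_sl A false) (W_sl B false)).trans
      (Nat.mul_le_mul_left _ (Finset.card_le_card (W_sub A B false false)))
    have i11 := (ih (W_sl A true) (W_sl B true)).trans
      (Nat.mul_le_mul_left _ (Finset.card_le_card (W_sub A B true true)))
    have i10 := (ih (W_sl A true) (W_sl B false)).trans
      (Nat.mul_le_mul_left _ (Finset.card_le_card (W_sub A B true false)))
    have i01 := (ih (W_sl A false) (W_sl B true)).trans
      (Nat.mul_le_mul_left _ (Finset.card_le_card (W_sub A B false true)))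
    have d00 : df false false = 0 := by simp [df]
    have d11 : df true true = 0 := by simp [df]
    have d10 : df true false = 1 := by simp [df]
    have d01 : df false true = -1 := by simp [df]
    rw [d00] at i00
    rw [d11] at i11
    rw [d10] at i10
    rw [d01] at i01
    have hmax : 3 ^ n * max ((W_sl A false).card * (W_sl B false).card)
        ((W_sl A true).card * (W_sl B true).card) ≤ 4 ^ n * (W_sl (W_D A B) 0).card := by
      rcases le_total ((W_sl A true).card * (W_sl B true).card)
        ((W_sl A false).card * (W_sl B false).card) with h | h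
      · rw [max_eq_left h]
        exact i00
      · rw [max_eq_right h]
        exact i11
    have hn := W_num (W_sl A false).card (W_sl A true).card (W_sl B false).card
      (W_sl B true).card
    rw [← cA, ← cB] at hn
    calc 3 ^ (n + 1) * (A.card * B.card) = 3 ^ n * (3 * (A.card * B.card)) := by ring
      _ ≤ 3 ^ n * (4 * (max ((W_sl A false).card * (W_sl B false).card)
          ((W_sl A true).card * (W_sl B true).card) + (W_sl A true).card * (W_sl B false).card +
          (W_sl A false).card * (W_sl B true).card)) := Nat.mul_le_mul_left _ hn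
      _ = 4 * (3 ^ n * max ((W_sl A false).card * (W_sl B false).card)
          ((W_sl A true).card * (W_sl B true).card) +
          3 ^ n * ((W_sl A true).card * (W_sl B false).card) +
          3 ^ n * ((W_sl A false).card * (W_sl B true).card)) := by ring
      _ ≤ 4 * (4 ^ n * (W_sl (W_D A B) 0).card + 4 ^ n * (W_sl (W_D A B) 1).card +
          4 ^ n * (W_sl (W_D A B) (-1)).card) := by
          refine Nat.mul_le_mul_left _ ?_
          exact add_le_add (add_le_add hmax i10) i01
      _ = 4 ^ (n + 1) * (W_D A B).card := by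
          rw [cD]
          ring

/-! ### ROW W -/

theorem diff_card {J : Type} [Fintype J] (A B : Finset (J → Bool)) :
    3 ^ Fintype.card J * (A.card * B.card) ≤ 4 ^ Fintype.card J *
      (Finset.image₂ (fun v w j => df (v j) (w j)) A B).card := by
  set e := Fintype.equivFin J with he
  have inj : ∀ (α : Type), Function.Injective
      (fun (v : J → α) => (fun i => v (e.symm i) : Fin (Fintype.card J) → α)) := by
    intro α v w h
    funext j
    have := congrFun h (e j)
    simpa using this
  have h := W_fin (Fintype.card J)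
    (A.image (fun v => (fun i => v (e.symm i) : Fin (Fintype.card J) → Bool)))
    (B.image (fun v => (fun i => v (e.symm i) : Fin (Fintype.card J) → Bool)))
  rw [Finset.card_image_of_injective _ (inj Bool), Finset.card_image_of_injective _ (inj Bool)] at h
  refine h.trans (Nat.mul_le_mul_left _ ?_)
  have hD : W_D (A.image (fun v => (fun i => v (e.symm i) : Fin (Fintype.card J) → Bool)))
      (B.image (fun v => (fun i => v (e.symm i) : Fin (Fintype.card J) → Bool))) ⊆
      (Finset.image₂ (fun v w j => df (v j) (w j)) A B).image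
        (fun x => (fun i => x (e.symm i) : Fin (Fintype.card J) → ZMod 3)) := by
    intro t ht
    unfold W_D at ht
    rw [Finset.mem_image₂] at ht
    obtain ⟨v', hv', w', hw', rfl⟩ := ht
    rw [Finset.mem_image] at hv' hw'
    obtain ⟨v, hv, rfl⟩ := hv'
    obtain ⟨w, hw, rfl⟩ := hw'
    rw [Finset.mem_image]
    refine ⟨fun j => df (v j) (w j), ?_, rfl⟩
    rw [Finset.mem_image₂]
    exact ⟨v, hv, w, hw, rfl⟩
  exact (Finset.card_le_card hD).trans Finset.card_image_le

end

end Pool.Agent.FF
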