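import Pool.Agent.FF.Defs
import Pool.Agent.FF.W
import Pool.Agent.FF.FIB

/-!
Row NLB: the bound for the number of cells.
-/

set_option autoImplicit false

open scoped BigOperators RealInnerProductSpace Classical

namespace Pool.Agent.FF

noncomputable section

open Module Pool.Agent.GRD

private theorem NLB_num : Real.exp 1 * (Real.exp (1 / 8) ^ 2 * (2 * Real.pi)) ≤ 22 := by
  have h1 : Real.exp 1 < 2.7182818286 := Real.exp_one_lt_d9
  have h2 : Real.exp (1 / 8) ^ 2 = Real.exp (1 / 4) := by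
    rw [← Real.exp_nat_mul]; norm_num
  have h3 : Real.exp (1 / 4) ^ 4 = Real.exp 1 := by
    rw [← Real.exp_nat_mul]; norm_num
  have h4 : Real.exp (1 / 4) < 1.2841 := by
    by_contra hcon
    push Not at hcon
    have h5 : (1.2841 : ℝ) ^ 4 ≤ Real.exp (1 / 4) ^ 4 := pow_le_pow_left₀ (by norm_num) hcon 4
    rw [h3] at h5
    norm_num at h5
    linarith
  have hpi : Real.pi < 3.1416 := Real.pi_lt_d4
  have hpi0 := Real.pi_pos
  have he := Real.exp_pos (1 / 4 : ℝ)
  have he1 := Real.exp_pos (1 : ℝ)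
  rw [h2]
  have h6 : Real.exp (1 / 4) * (2 * Real.pi) ≤ 1.2841 * 6.2832 :=
    mul_le_mul h4.le (by linarith) (by positivity) (by norm_num)
  have h7 : Real.exp 1 * (Real.exp (1 / 4) * (2 * Real.pi)) ≤ 2.7182818286 * (1.2841 * 6.2832) :=
    mul_le_mul h1.le h6 (by positivity) (by norm_num)
  refine h7.trans ?_
  norm_num

private theorem NLB_prod (n : ℝ) (hn : 0 ≤ n) (k : ℕ) :
    Bd n k ^ 2 * k.factorial = (Cg ^ 2 * n) ^ k := by
  induction k with
  | zero => simp [Bd]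
  | succ k ih =>
    have h1 : Bd n (k + 1) = Bd n k * (Cg * Real.sqrt (n / ((k : ℝ) + 1))) := by
      unfold Bd
      rw [Finset.prod_range_succ]
    have h2 : Real.sqrt (n / ((k : ℝ) + 1)) ^ 2 = n / ((k : ℝ) + 1) :=
      Real.sq_sqrt (by positivity)
    have h3 : ((k : ℝ) + 1) ≠ 0 := by positivity
    rw [h1, Nat.factorial_succ, pow_succ (Cg ^ 2 * n) k, ← ih]
    push_cast
    calc (Bd n k * (Cg * Real.sqrt (n / ((k : ℝ) + 1)))) ^ 2 * (((k : ℝ) + 1) * (k.factorial : ℝ))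
        = Bd n k ^ 2 * (k.factorial : ℝ) * (Cg ^ 2 * (Real.sqrt (n / ((k : ℝ) + 1)) ^ 2 *
          ((k : ℝ) + 1))) := by ring
      _ = Bd n k ^ 2 * (k.factorial : ℝ) * (Cg ^ 2 * n) := by
        rw [h2, div_mul_cancel₀ _ h3]

theorem Bd_sq (n : ℝ) (hn : 0 ≤ n) (k : ℕ) :
    (Real.exp (k / 2) * Bd n k) ^ 2 * k.factorial ≤ (22 * n) ^ k := by
  have h1 : Real.exp ((k : ℝ) / 2) ^ 2 = Real.exp 1 ^ k := by
    rw [← Real.exp_nat_mul, ← Real.exp_nat_mul]
    congr 1
    push_cast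
    ring
  have h2 : Cg ^ 2 = Real.exp (1 / 8) ^ 2 * (2 * Real.pi) := by
    unfold Cg
    rw [mul_pow, Real.sq_sqrt (by positivity)]
  have h3 : Real.exp 1 * Cg ^ 2 ≤ 22 := by
    rw [h2]; exact NLB_num
  calc (Real.exp (k / 2) * Bd n k) ^ 2 * k.factorial
      = Real.exp (k / 2) ^ 2 * (Bd n k ^ 2 * k.factorial) := by ring
    _ = (Real.exp 1 * Cg ^ 2 * n) ^ k := by
      rw [h1, NLB_prod n hn k, ← mul_pow]; ring
    _ ≤ (22 * n) ^ k := by
      refine pow_le_pow_left₀ ?_ (mul_le_mul_of_nonneg_right h3 hn) k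
      have := Real.exp_pos (1 : ℝ)
      positivity

private theorem NLB_df (a b : Bool) : sg (df a b) = (sgb a - sgb b) / 2 := by
  have h : (-1 : ZMod 3) = 2 := by decide
  cases a <;> cases b <;> simp [df, sgb, sg_zero, sg_one, h, sg_two] <;> norm_num

private theorem NLB_df_zero (a b : Bool) (h : df a b = 0) : a = b := by
  revert h
  cases a <;> cases b <;> simp [df]

private theorem NLB_real (d : ℕ) (a E N K Z : ℝ) (ha : 0 ≤ a) (hK : 0 ≤ K)
    (hZ : 0 ≤ Z) (hA : (2 : ℝ) ^ d ≤ a * E) (hB : E ^ 2 * K ≤ Z)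
    (hc : (3 : ℝ) ^ d * (a * a) ≤ 4 ^ d * N) : (3 : ℝ) ^ d * K ≤ N * Z := by
  have h2 : ((2 : ℝ) ^ d) ^ 2 ≤ (a * E) ^ 2 :=
    pow_le_pow_left₀ (by positivity) hA 2
  have h3 : ((2 : ℝ) ^ d) ^ 2 = 4 ^ d := by
    rw [← pow_mul, mul_comm d 2, pow_mul]; norm_num
  have h4 : (4 : ℝ) ^ d * K ≤ (a * a) * Z := by
    calc (4 : ℝ) ^ d * K ≤ (a * E) ^ 2 * K := by
          rw [← h3]
          exact mul_le_mul_of_nonneg_right h2 hK
      _ = (a * a) * (E ^ 2 * K) := by ring
      _ ≤ _ := mul_le_mul_of_nonneg_left hB (by positivity)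
  have h5 : (4 : ℝ) ^ d * (3 ^ d * K) ≤ 4 ^ d * (N * Z) := by
    calc (4 : ℝ) ^ d * (3 ^ d * K) = 3 ^ d * (4 ^ d * K) := by ring
      _ ≤ 3 ^ d * ((a * a) * Z) :=
        mul_le_mul_of_nonneg_left h4 (by positivity)
      _ = 3 ^ d * (a * a) * Z := by ring
      _ ≤ 4 ^ d * N * Z :=
        mul_le_mul_of_nonneg_right hc hZ
      _ = _ := by ring
  exact le_of_mul_le_mul_left h5 (by positivity)

private theorem NLB_cell {ι : Type} [Fintype ι] (L : Submodule ℝ (ι → ℝ)) {k : ℕ}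
    (f : Fin k → ι) (A : Finset ({i // i ∉ Set.range f} → Bool))
    (hx : ∀ v ∈ A, ∀ w ∈ A, ∃ x : ι → ℝ, x ∈ L ∧ (∀ i : {i // i ∉ Set.range f},
          x i.1 = (sgb (v i) - sgb (w i)) / 2) ∧ ∀ j, |x (f j)| < 1) :
    (Finset.image₂ (fun v w (j : {i // i ∉ Set.range f}) => df (v j) (w j)) A A).card
      ≤ NL L := by
  unfold NL
  refine Finset.card_le_card_of_injOn
    (fun t i => if h : i ∉ Set.range f then t ⟨i, h⟩ else (0 : ZMod 3)) ?_ ?_
  · intro t ht
    rw [Finset.mem_coe, Finset.mem_image₂] at ht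
    obtain ⟨v, hv, w, hw, rfl⟩ := ht
    obtain ⟨x, hxL, hx1, hx2⟩ := hx v hv w hw
    rw [Finset.mem_coe, Finset.mem_filter]
    refine ⟨Finset.mem_univ _, x, hxL, ?_⟩
    intro i
    by_cases hi : i ∈ Set.range f
    · obtain ⟨j, rfl⟩ := hi
      have h0 : (if h : f j ∉ Set.range f then df (v ⟨f j, h⟩) (w ⟨f j, h⟩) else (0 : ZMod 3))
          = 0 := by
        rw [dif_neg]
        exact fun h => h ⟨j, rfl⟩
      exact ⟨fun _ => hx2 j, fun h => absurd h0 h⟩
    · have h0 : (if h : i ∉ Set.range f then df (v ⟨i, h⟩) (w ⟨i, h⟩) else (0 : ZMod 3))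
          = df (v ⟨i, hi⟩) (w ⟨i, hi⟩) := dif_pos hi
      have h1 := hx1 ⟨i, hi⟩
      simp only at h1
      constructor
      · intro h
        simp only [h0] at h
        have h2 := NLB_df_zero _ _ h
        show |x i| < 1
        rw [h1, h2, sub_self, zero_div, abs_zero]
        exact one_pos
      · intro _
        show x i = sg _
        simp only [h0]
        rw [NLB_df, h1]
  · intro t _ t' _ htt
    funext j
    have h1 := congrFun htt j.1
    simp only [dif_pos j.2] at h1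
    exact h1

private theorem NLB_compl {ι : Type} [Fintype ι] {k : ℕ} (f : Fin k → ι)
    (hf : Function.Injective f) :
    Fintype.card {i // i ∉ Set.range f} + k = Fintype.card ι := by
  have h1 : Fintype.card {i // i ∈ Set.range f} = k := by
    have h0 := Fintype.card_congr (Equiv.ofInjective f hf)
    rw [Fintype.card_fin] at h0
    refine Eq.trans ?_ h0.symm
    exact Fintype.card_congr (Equiv.refl _)
  have h2 : Fintype.card {i // i ∉ Set.range f} = Fintype.card ι -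
      Fintype.card {i // i ∈ Set.range f} := Fintype.card_subtype_compl _
  have h3 : Fintype.card {i // i ∈ Set.range f} ≤ Fintype.card ι := Fintype.card_subtype_le _
  omega

private theorem NLB_rank {ι : Type} [Fintype ι] (L : Submodule ℝ (ι → ℝ)) :
    finrank ℝ (L.comap (WithLp.linearEquiv 2 ℝ (ι → ℝ)).toLinearMap : Submodule ℝ (V ι))
      = finrank ℝ L := by
  have e := (WithLp.linearEquiv 2 ℝ (ι → ℝ)).submoduleMap
    (L.comap (WithLp.linearEquiv 2 ℝ (ι → ℝ)).toLinearMap)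
  have h1 : (L.comap (WithLp.linearEquiv 2 ℝ (ι → ℝ)).toLinearMap).map
      (WithLp.linearEquiv 2 ℝ (ι → ℝ)).toLinearMap = L :=
    Submodule.map_comap_eq_of_surjective (WithLp.linearEquiv 2 ℝ (ι → ℝ)).surjective L
  have h2 := LinearEquiv.finrank_eq e
  rw [h2]
  exact congrArg (fun M : Submodule ℝ (ι → ℝ) => finrank ℝ M) h1

theorem nl_bound {ι : Type} [Fintype ι] (L : Submodule ℝ (ι → ℝ)) {k : ℕ}
    (hk : finrank ℝ L + k = Fintype.card ι) :
    3 ^ finrank ℝ L * k.factorial ≤ NL L * (22 * Fintype.card ι) ^ k := by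
  have hfL2 := NLB_rank L
  have hW : finrank ℝ (L.comap (WithLp.linearEquiv 2 ℝ (ι → ℝ)).toLinearMap :
      Submodule ℝ (V ι))ᗮ = k := by
    have h1 := Submodule.finrank_add_finrank_orthogonal
      (L.comap (WithLp.linearEquiv 2 ℝ (ι → ℝ)).toLinearMap : Submodule ℝ (V ι))
    rw [finrank_euclideanSpace] at h1
    omega
  obtain ⟨f, hf, A, hA, hx⟩ := fib
    (L.comap (WithLp.linearEquiv 2 ℝ (ι → ℝ)).toLinearMap : Submodule ℝ (V ι))ᗮ hW
  have hJc : Fintype.card {i // i ∉ Set.range f} = finrank ℝ L := by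
    have := NLB_compl f hf
    omega
  have hcell := NLB_cell L f A (by
    intro v hv w hw
    obtain ⟨x, hxL, hx1, hx2⟩ := hx v hv w hw
    rw [Submodule.orthogonal_orthogonal] at hxL
    exact ⟨fun i => x i, hxL, hx1, hx2⟩)
  have hdc := diff_card A A
  rw [hJc] at hdc
  rw [hJc] at hA
  have hB := Bd_sq (Fintype.card ι) (Nat.cast_nonneg _) k
  have h1 : ((3 : ℝ) ^ finrank ℝ L * ((A.card : ℝ) * A.card)) ≤ 4 ^ finrank ℝ L * (NL L : ℝ) := by
    have h2 : 3 ^ finrank ℝ L * (A.card * A.card) ≤ 4 ^ finrank ℝ L * NL L :=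
      hdc.trans (Nat.mul_le_mul_left _ hcell)
    exact_mod_cast h2
  have h6 := NLB_real (finrank ℝ L) (A.card : ℝ) _ (NL L : ℝ) (k.factorial : ℝ)
    ((22 * (Fintype.card ι : ℝ)) ^ k) (Nat.cast_nonneg _) (Nat.cast_nonneg _) (by positivity)
    hA hB h1
  exact_mod_cast h6

end

end Pool.Agent.FF
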